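import Pool.Agent.Run7.h434.EP.Iface

/-!
# The piece POL of `Run7.h434.EP.Iface`: polar coordinates for the gauge, by scaling
-/

set_option autoImplicit false

namespace Run7.h586.EP

open MeasureTheory Set Filter Topology
open scoped ENNReal Pointwise
open Pool.Agent.W695.KH (Eu)
open Run7.h434.EP

section pol

variable {κ : Type} [Fintype κ] {L : Set (Eu κ)}

theorem Body.nhds (hL : Body L) : L ∈ 𝓝 (0 : Eu κ) := mem_interior_iff_mem_nhds.1 hL.zero

theorem Body.gcont (hL : Body L) : Continuous (gauge L) := continuous_gauge hL.conv (Body.nhds hL)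

theorem Body.absorbs (hL : Body L) : Absorbent ℝ L := absorbent_nhds_zero (Body.nhds hL)

theorem Body.gle (hL : Body L) (x : Eu κ) : gauge L x ≤ 1 ↔ x ∈ L := by
  constructor
  · intro h
    have h2 := (gauge_le_one_iff_mem_closure hL.conv (Body.nhds hL)).1 h
    rwa [hL.comp.isClosed.closure_eq] at h2
  · exact gauge_le_one_of_mem

theorem Body.gzero (hL : Body L) (x : Eu κ) : gauge L x = 0 ↔ x = 0 :=
  gauge_eq_zero (Body.absorbs hL) ((NormedSpace.isVonNBounded_iff ℝ).2 hL.comp.isBounded)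

theorem gsmul (t : ℝ) (ht : 0 ≤ t) (x : Eu κ) : gauge L (t • x) = t * gauge L x := by
  rw [gauge_smul_of_nonneg ht, smul_eq_mul]

/-- direction -/
noncomputable def dr (L : Set (Eu κ)) (ζ : Eu κ) : Eu κ := (gauge L ζ)⁻¹ • ζ

theorem dr_meas (hL : Body L) : Measurable (dr L) := by
  unfold dr
  exact ((Body.gcont hL).measurable.inv).smul measurable_id

theorem dr_smul {t : ℝ} (ht : 0 < t) (x : Eu κ) : dr L (t • x) = dr L x := by
  unfold dr
  rw [gsmul t ht.le, mul_inv, smul_smul]
  congr 1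
  field_simp

/-- the set of scaled points -/
theorem scale_set (hL : Body L) {t : ℝ} (ht : 0 < t) (ht1 : t ≤ 1) (B : Set (Eu κ)) :
    {ζ | ζ ∈ L ∧ dr L ζ ∈ B ∧ gauge L ζ ≤ t} = t • {ζ | ζ ∈ L ∧ dr L ζ ∈ B} := by
  ext ζ
  rw [mem_smul_set_iff_inv_smul_mem₀ ht.ne']
  simp only [mem_ofPred_eq]
  rw [dr_smul (inv_pos.2 ht), ← Body.gle hL ζ, ← Body.gle hL (t⁻¹ • ζ), gsmul _ (inv_pos.2 ht).le,
    inv_mul_le_iff₀ ht, mul_one]
  constructor
  · rintro ⟨_, h2, h3⟩
    exact ⟨h3, h2⟩
  · rintro ⟨h1, h2⟩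
    exact ⟨h1.trans ht1, h2, h1⟩

theorem vol_scale [Nonempty κ] (hL : Body L) {t : ℝ} (ht : 0 ≤ t) (ht1 : t ≤ 1) (B : Set (Eu κ)) :
    volume {ζ | ζ ∈ L ∧ dr L ζ ∈ B ∧ gauge L ζ ≤ t} =
      ENNReal.ofReal (t ^ Fintype.card κ) * volume {ζ | ζ ∈ L ∧ dr L ζ ∈ B} := by
  rcases ht.eq_or_lt with rfl | ht
  · rw [zero_pow Fintype.card_ne_zero, ENNReal.ofReal_zero, zero_mul]
    refine measure_mono_null ?_ (measure_singleton (0 : Eu κ))
    intro ζ hζ
    exact (Body.gzero hL ζ).1 (le_antisymm hζ.2.2 (gauge_nonneg _))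
  · rw [scale_set hL ht ht1, Measure.addHaar_smul, abs_of_nonneg (by positivity)]
    simp

/-- radial coordinate -/
noncomputable def rr (d : ℕ) (y : ℝ) : ℝ := ((1 + y) / 2) ^ (1 / (d : ℝ))

theorem rr_meas (d : ℕ) : Measurable (rr d) := by
  unfold rr
  fun_prop

theorem rr_set {d : ℕ} (hd : 0 < d) {t : ℝ} (ht : 0 ≤ t) (ht1 : t ≤ 1) :
    Icc (-1 : ℝ) 1 ∩ rr d ⁻¹' Iic t = Icc (-1) (2 * t ^ d - 1) := by
  have hpow : t ^ d ≤ 1 := pow_le_one₀ ht ht1
  ext y
  simp only [mem_inter_iff, mem_Icc, mem_preimage, mem_Iic, rr]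
  have hiff : ∀ y : ℝ, -1 ≤ y → (((1 + y) / 2) ^ (1 / (d : ℝ)) ≤ t ↔ (1 + y) / 2 ≤ t ^ d) := by
    intro y hy
    have hx : 0 ≤ (1 + y) / 2 := by linarith
    have hd' : (d : ℝ) ≠ 0 := by positivity
    constructor
    · intro h
      have h2 : (((1 + y) / 2) ^ (1 / (d : ℝ))) ^ d ≤ t ^ d :=
        pow_le_pow_left₀ (Real.rpow_nonneg hx _) h d
      rwa [← Real.rpow_natCast, ← Real.rpow_mul hx, one_div, inv_mul_cancel₀ hd', Real.rpow_one] at h2
    · intro h
      have h2 : ((1 + y) / 2) ^ (1 / (d : ℝ)) ≤ (t ^ d) ^ (1 / (d : ℝ)) :=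
        Real.rpow_le_rpow hx h (by positivity)
      rwa [← Real.rpow_natCast t d, ← Real.rpow_mul ht, mul_one_div_cancel hd', Real.rpow_one] at h2
  constructor
  · rintro ⟨⟨h1, h2⟩, h3⟩
    have := (hiff y h1).1 h3
    exact ⟨h1, by linarith⟩
  · rintro ⟨h1, h2⟩
    refine ⟨⟨h1, by linarith⟩, (hiff y h1).2 (by linarith)⟩

/-- distribution of the radial coordinate -/
noncomputable def tau (d : ℕ) : Measure ℝ := (volume.restrict (Icc (-1 : ℝ) 1)).map (rr d)

/-- distribution of the direction -/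
noncomputable def rho (L : Set (Eu κ)) : Measure (Eu κ) := (volume.restrict L).map (dr L)

theorem prod_eq' [Nonempty κ] (hL : Body L) :
    (tau (Fintype.card κ)).prod (rho L) =
      (2 : ℝ≥0∞) • ((volume.restrict L).map fun ζ => (gauge L ζ, dr L ζ)) := by
  have hLm : MeasurableSet L := hL.comp.measurableSet
  have hfin : volume L ≠ ∞ := hL.comp.measure_lt_top.ne
  have : IsFiniteMeasure (volume.restrict L) := ⟨by
    rw [Measure.restrict_apply_univ]; exact hL.comp.measure_lt_top⟩
  have : IsFiniteMeasure (rho L) := by unfold rho; infer_instance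
  have : IsFiniteMeasure (tau (Fintype.card κ)) := by unfold tau; infer_instance
  have hgm : Measurable (gauge L) := (Body.gcont hL).measurable
  have hdm := dr_meas hL
  refine Measure.prod_eq fun s B hs hB => ?_
  -- both sides are measures in s
  have hBm : MeasurableSet {ζ | ζ ∈ L ∧ dr L ζ ∈ B} := hLm.inter (hdm hB)
  have hrho : rho L B = volume {ζ | ζ ∈ L ∧ dr L ζ ∈ B} := by
    unfold rho
    rw [Measure.map_apply hdm hB, Measure.restrict_apply (hdm hB)]
    congr 1
    ext ζ
    simp only [mem_inter_iff, mem_preimage, mem_ofPred_eq]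
    tauto
  set S : Set (Eu κ) := {ζ | ζ ∈ L ∧ dr L ζ ∈ B} with hS
  have : IsFiniteMeasure (volume.restrict S) := ⟨by
    rw [Measure.restrict_apply_univ]
    exact (measure_mono fun ζ hζ => hζ.1).trans_lt hL.comp.measure_lt_top⟩
  have h2 : ((2 : ℝ≥0∞) • ((volume.restrict L).map fun ζ => (gauge L ζ, dr L ζ))) (s ×ˢ B) =
      ((2 : ℝ≥0∞) • (volume.restrict S).map (gauge L)) s := by
    rw [Measure.smul_apply, Measure.smul_apply, Measure.map_apply (hgm.prodMk hdm) (hs.prod hB),
      Measure.map_apply hgm hs, Measure.restrict_apply ((hgm.prodMk hdm) (hs.prod hB)),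
      Measure.restrict_apply (hgm hs)]
    congr 2
    ext ζ
    simp only [hS, mem_inter_iff, mem_preimage, mem_prod, mem_ofPred_eq]
    tauto
  have h3 : tau (Fintype.card κ) s * rho L B = ((rho L B) • tau (Fintype.card κ)) s := by
    rw [Measure.smul_apply, smul_eq_mul, mul_comm]
  rw [h2, h3]
  have hfin2 : IsFiniteMeasure ((2 : ℝ≥0∞) • (volume.restrict S).map (gauge L)) := by
    refine ⟨?_⟩
    rw [Measure.smul_apply, smul_eq_mul]
    exact ENNReal.mul_lt_top (by norm_num) (measure_lt_top _ _)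
  have heq : (2 : ℝ≥0∞) • (volume.restrict S).map (gauge L) = (rho L B) • tau (Fintype.card κ) := by
    refine Measure.ext_of_Iic _ _ fun t => ?_
    rw [Measure.smul_apply, Measure.smul_apply, smul_eq_mul, smul_eq_mul,
      Measure.map_apply hgm measurableSet_Iic, Measure.restrict_apply (hgm measurableSet_Iic)]
    unfold tau
    rw [Measure.map_apply (rr_meas _) measurableSet_Iic,
      Measure.restrict_apply ((rr_meas _) measurableSet_Iic), inter_comm (rr _ ⁻¹' _)]
    rcases lt_or_ge t 0 with ht | ht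
    · have e1 : gauge L ⁻¹' Iic t ∩ S = ∅ := by
        ext ζ
        simp only [mem_inter_iff, mem_preimage, mem_Iic, mem_empty_iff_false, iff_false]
        intro h
        have := gauge_nonneg (s := L) ζ
        linarith [h.1]
      have e2 : Icc (-1 : ℝ) 1 ∩ rr (Fintype.card κ) ⁻¹' Iic t = ∅ := by
        ext y
        simp only [mem_inter_iff, mem_preimage, mem_Iic, mem_empty_iff_false, iff_false, mem_Icc, rr]
        rintro ⟨⟨h1, _⟩, h2⟩
        have : 0 ≤ ((1 + y) / 2) ^ (1 / ((Fintype.card κ : ℕ) : ℝ)) := Real.rpow_nonneg (by linarith) _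
        linarith
      rw [e1, e2]
      simp
    · -- reduce to t ≤ 1
      have main : ∀ t : ℝ, 0 ≤ t → t ≤ 1 →
          2 * volume (gauge L ⁻¹' Iic t ∩ S) =
            rho L B * volume (Icc (-1 : ℝ) 1 ∩ rr (Fintype.card κ) ⁻¹' Iic t) := by
        intro t ht ht1
        rw [rr_set Fintype.card_pos ht ht1, Real.volume_Icc, hrho]
        have e1 : gauge L ⁻¹' Iic t ∩ S = {ζ | ζ ∈ L ∧ dr L ζ ∈ B ∧ gauge L ζ ≤ t} := by
          ext ζ
          simp only [hS, mem_inter_iff, mem_preimage, mem_Iic, mem_ofPred_eq]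
          tauto
        rw [e1, vol_scale hL ht ht1, show 2 * t ^ Fintype.card κ - 1 - -1 = 2 * t ^ Fintype.card κ by ring,
          ENNReal.ofReal_mul (by norm_num), ENNReal.ofReal_ofNat]
        ring
      rcases le_or_gt t 1 with ht1 | ht1
      · exact main t ht ht1
      · have e1 : gauge L ⁻¹' Iic t ∩ S = gauge L ⁻¹' Iic 1 ∩ S := by
          ext ζ
          simp only [mem_inter_iff, mem_preimage, mem_Iic, and_congr_left_iff]
          intro hζ
          have : gauge L ζ ≤ 1 := gauge_le_one_of_mem hζ.1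
          exact ⟨fun _ => this, fun _ => this.trans ht1.le⟩
        have e2 : Icc (-1 : ℝ) 1 ∩ rr (Fintype.card κ) ⁻¹' Iic t =
            Icc (-1 : ℝ) 1 ∩ rr (Fintype.card κ) ⁻¹' Iic 1 := by
          ext y
          simp only [mem_inter_iff, mem_preimage, mem_Iic, and_congr_right_iff, mem_Icc, rr]
          rintro ⟨h1, h2⟩
          have : ((1 + y) / 2) ^ (1 / ((Fintype.card κ : ℕ) : ℝ)) ≤ 1 :=
            Real.rpow_le_one (by linarith) (by linarith) (by positivity)
          exact ⟨fun _ => this, fun _ => this.trans ht1.le⟩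
        rw [e1, e2]
        exact main 1 zero_le_one le_rfl
  rw [heq]

end pol

/-- **POL** -/
theorem pol : S_POL := by
  intro κ _ _ L hL h hh
  have hLm : MeasurableSet L := hL.comp.measurableSet
  have : IsFiniteMeasure (volume.restrict L) := ⟨by
    rw [Measure.restrict_apply_univ]; exact hL.comp.measure_lt_top⟩
  have : IsFiniteMeasure (rho L) := by unfold rho; infer_instance
  have : IsFiniteMeasure (tau (Fintype.card κ)) := by unfold tau; infer_instance
  have hgm : Measurable (gauge L) := (Body.gcont hL).measurable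
  have hdm := dr_meas hL
  have hH : Measurable fun p : ℝ × Eu κ => h (p.1 • p.2) :=
    hh.comp (measurable_fst.smul measurable_snd)
  have key := congrArg (fun μ => ∫⁻ p, h (p.1 • p.2) ∂μ) (prod_eq' hL)
  rw [lintegral_smul_measure, lintegral_map hH (hgm.prodMk hdm), lintegral_prod _ hH.aemeasurable] at key
  unfold tau at key
  rw [lintegral_map (by
    exact Measurable.lintegral_prod_right (f := fun x : ℝ => fun y : Eu κ => h (x • y)) hH) (rr_meas _)] at key
  have key2 : ∫⁻ ζ in L, h (gauge L ζ • dr L ζ) = ∫⁻ ζ in L, h ζ := by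
    refine lintegral_congr_ae ?_
    have h0 : ∀ᵐ ζ ∂(volume.restrict L), ζ ≠ 0 :=
      ae_restrict_of_ae (measure_eq_zero_iff_ae_notMem.1 (measure_singleton (0 : Eu κ)))
    filter_upwards [h0] with ζ hζ
    unfold dr
    rw [smul_smul, mul_inv_cancel₀ (fun hc => hζ ((Body.gzero hL ζ).1 hc)), one_smul]
  rw [key2, smul_eq_mul] at key
  rw [← key]
  refine lintegral_congr fun y => ?_
  unfold rho
  have hc : Measurable fun u : Eu κ => h (rr (Fintype.card κ) y • u) :=
    hh.comp (measurable_id.const_smul (rr (Fintype.card κ) y))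
  exact lintegral_map hc hdm

end Run7.h586.EP
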