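import Pool.Agent.Run7.h434.EP.Iface

/-!
# The piece RAD of `Run7.h434.EP.Iface`
-/

set_option autoImplicit false

namespace Run7.h586.EP

open MeasureTheory Set Filter Topology
open Run7.h523.KF (KK sv Master)
open Pool.Agent.W695.KH (Eu)
open Run7.h434.EP

theorem compact_KK {P : Type} [Fintype P] (R : P × Bool → P × Bool → Prop) : IsCompact (KK R) := by
  have hsv : ∀ a : P × Bool, Continuous fun y : P → ℝ => sv y a := by
    intro a
    unfold sv
    split_ifs
    · exact continuous_apply _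
    · exact (continuous_apply _).neg
  have hcl : IsClosed (KK R) := by
    have h1 : KK R = (⋂ v, {y : P → ℝ | -1 ≤ y v ∧ y v ≤ 1}) ∩
        ⋂ a, ⋂ b, ⋂ (_ : R a b), {y : P → ℝ | sv y a ≤ sv y b} := by
      ext y
      simp only [KK, mem_ofPred_eq, mem_inter_iff, mem_iInter]
    rw [h1]
    refine IsClosed.inter (isClosed_iInter fun v => ?_) (isClosed_iInter fun a => isClosed_iInter fun b =>
      isClosed_iInter fun _ => isClosed_le (hsv a) (hsv b))
    exact (isClosed_le continuous_const (continuous_apply v)).inter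
      (isClosed_le (continuous_apply v) continuous_const)
  refine (isCompact_univ_pi (fun _ : P => isCompact_Icc (a := (-1 : ℝ)) (b := 1))).of_isClosed_subset
    hcl ?_
  intro y hy v _
  exact hy.1 v

/-- the regularisation of `x ^ (1/d)` -/
noncomputable def ph (d : ℝ) (ε y : ℝ) : ℝ := (((1 + y) / 2) ^ 2 + ε ^ 2) ^ (1 / (2 * d))

/-- its derivative -/
noncomputable def dph (d : ℝ) (ε y : ℝ) : ℝ :=
  1 / (2 * d) * ((1 + y) / 2) * (((1 + y) / 2) ^ 2 + ε ^ 2) ^ (1 / (2 * d) - 1)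

theorem ph_cont {d : ℝ} (hd : 0 < d) : Continuous fun p : ℝ × ℝ => ph d p.1 p.2 := by
  unfold ph
  refine Continuous.rpow_const (by fun_prop) fun p => Or.inr (by positivity)

theorem base_pos {ε : ℝ} (hε : 0 < ε) (y : ℝ) : 0 < ((1 + y) / 2) ^ 2 + ε ^ 2 := by positivity

theorem ph_contDiff {d ε : ℝ} (hε : 0 < ε) : ContDiff ℝ 1 (ph d ε) := by
  unfold ph
  refine ContDiff.rpow_const_of_ne (by fun_prop) fun y => (base_pos hε y).ne'

theorem ph_deriv {d ε : ℝ} (hε : 0 < ε) (y : ℝ) : HasDerivAt (ph d ε) (dph d ε y) y := by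
  have h0 : HasDerivAt (fun y : ℝ => ((1 + y) / 2) ^ 2 + ε ^ 2) ((1 + y) / 2) y := by
    have h1 : HasDerivAt (fun y : ℝ => (1 + y) / 2) (1 / 2) y := by
      simpa using ((hasDerivAt_id y).const_add 1).div_const 2
    have h2 := (h1.pow 2).add_const (ε ^ 2)
    refine h2.congr_deriv ?_
    simp only [Nat.cast_ofNat, Nat.add_one_sub_one, pow_one]
    ring
  have h3 := h0.rpow_const (p := 1 / (2 * d)) (Or.inl (base_pos hε y).ne')
  refine h3.congr_deriv ?_
  unfold dph
  ring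

theorem dph_le {d ε : ℝ} (hd : 0 < d) (hε : 0 < ε) {y : ℝ} (hy : -1 ≤ y ∧ y ≤ 1) :
    (1 - y ^ 2) ^ 2 * dph d ε y ^ 2 ≤ 4 / d ^ 2 * ph d ε y ^ 2 := by
  have hb := base_pos hε y
  have hq : (((1 + y) / 2) ^ 2 + ε ^ 2) ^ (1 / (2 * d) - 1) =
      ph d ε y / (((1 + y) / 2) ^ 2 + ε ^ 2) := by
    rw [Real.rpow_sub hb, Real.rpow_one]
    rfl
  have hp : 0 < ph d ε y := Real.rpow_pos_of_pos hb _
  obtain ⟨x, hx⟩ : ∃ x, x = (1 + y) / 2 := ⟨_, rfl⟩
  have hy' : y = 2 * x - 1 := by rw [hx]; ring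
  have hx0 : 0 ≤ x := by rw [hx]; linarith [hy.1]
  have hx1 : x ≤ 1 := by rw [hx]; linarith [hy.2]
  unfold dph
  rw [hq]
  rw [← hx] at hb ⊢
  have h1 : (1 - y ^ 2) * (1 / (2 * d) * x * (ph d ε y / (x ^ 2 + ε ^ 2))) =
      (2 / d) * ph d ε y * ((1 - x) * (x ^ 2 / (x ^ 2 + ε ^ 2))) := by
    rw [hy']
    field_simp
    ring
  have h2 : 0 ≤ (1 - x) * (x ^ 2 / (x ^ 2 + ε ^ 2)) :=
    mul_nonneg (by linarith) (by positivity)
  have h3 : (1 - x) * (x ^ 2 / (x ^ 2 + ε ^ 2)) ≤ 1 := by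
    have h4 : x ^ 2 / (x ^ 2 + ε ^ 2) ≤ 1 := by
      rw [div_le_one hb]
      nlinarith [sq_nonneg ε]
    have h5 : 0 ≤ x ^ 2 / (x ^ 2 + ε ^ 2) := by positivity
    nlinarith
  calc (1 - y ^ 2) ^ 2 * (1 / (2 * d) * x * (ph d ε y / (x ^ 2 + ε ^ 2))) ^ 2
      = ((1 - y ^ 2) * (1 / (2 * d) * x * (ph d ε y / (x ^ 2 + ε ^ 2)))) ^ 2 := by ring
    _ = ((2 / d) * ph d ε y) ^ 2 * ((1 - x) * (x ^ 2 / (x ^ 2 + ε ^ 2))) ^ 2 := by rw [h1]; ring
    _ ≤ ((2 / d) * ph d ε y) ^ 2 * 1 := by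
        refine mul_le_mul_of_nonneg_left ?_ (sq_nonneg _)
        nlinarith
    _ = 4 / d ^ 2 * ph d ε y ^ 2 := by ring

theorem ph_zero {d : ℝ} {y : ℝ} (hy : -1 ≤ y) : ph d 0 y = ((1 + y) / 2) ^ (1 / d) := by
  unfold ph
  have hx : 0 ≤ (1 + y) / 2 := by linarith
  rw [show ((1 + y) / 2) ^ 2 + (0 : ℝ) ^ 2 = ((1 + y) / 2) ^ (2 : ℝ) by norm_num,
    ← Real.rpow_mul hx]
  congr 1
  by_cases hd : d = 0
  · simp [hd]
  · field_simp

section main

variable {n : ℕ} {κ : Type} [Fintype κ]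

/-- the regularised curve -/
noncomputable def ze (d : ℝ) (w : Fin n → Eu κ) (ε : ℝ) (y : Fin n → ℝ) : Fin n → Eu κ :=
  fun v => ph d ε (y v) • w v

theorem ze_cont {d : ℝ} (hd : 0 < d) (w : Fin n → Eu κ) :
    Continuous fun p : ℝ × (Fin n → ℝ) => ze d w p.1 p.2 := by
  refine continuous_pi fun v => ?_
  have h := (ph_cont hd).comp (continuous_fst.prodMk ((continuous_apply v).comp continuous_snd) :
    Continuous fun p : ℝ × (Fin n → ℝ) => (p.1, p.2 v))
  exact h.smul continuous_const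

theorem ze_contDiff {d ε : ℝ} (hε : 0 < ε) (w : Fin n → Eu κ) : ContDiff ℝ 1 (ze d w ε) := by
  refine contDiff_pi.2 fun v => ?_
  have h := (ph_contDiff (d := d) hε).comp (contDiff_apply ℝ ℝ v : ContDiff ℝ 1 fun y : Fin n → ℝ => y v)
  exact h.smul contDiff_const

theorem ze_deriv {d ε : ℝ} (hε : 0 < ε) (w : Fin n → Eu κ) (y : Fin n → ℝ) :
    HasFDerivAt (ze d w ε) (ContinuousLinearMap.pi fun v =>
      ((dph d ε (y v)) • (ContinuousLinearMap.proj v : (Fin n → ℝ) →L[ℝ] ℝ)).smulRight (w v)) y := by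
  refine hasFDerivAt_pi.2 fun v => ?_
  have h := (ph_deriv (d := d) hε (y v)).comp_hasFDerivAt y
    (hasFDerivAt_apply (𝕜 := ℝ) v y)
  exact h.smul_const (w v)

theorem fderiv_comp_ze {d ε : ℝ} (hε : 0 < ε) (w : Fin n → Eu κ) (y : Fin n → ℝ)
    {f : (Fin n → Eu κ) → ℝ} (hf : ContDiff ℝ 1 f) (v : Fin n) :
    fderiv ℝ (fun y => f (ze d w ε y)) y (Pi.single v 1) =
      dph d ε (y v) * fderiv ℝ f (ze d w ε y) (Pi.single v (w v)) := by
  have hfd : HasFDerivAt f (fderiv ℝ f (ze d w ε y)) (ze d w ε y) :=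
    ((hf.differentiable (by norm_num)) _).hasFDerivAt
  have h := hfd.comp y (ze_deriv (d := d) hε w y)
  have h2 : fderiv ℝ (fun y => f (ze d w ε y)) y = _ := h.fderiv
  rw [h2, ContinuousLinearMap.comp_apply, ← smul_eq_mul, ← map_smul]
  congr 1
  funext u
  simp only [ContinuousLinearMap.coe_pi', ContinuousLinearMap.smulRight_apply,
    _root_.smul_apply, ContinuousLinearMap.proj_apply, Pi.smul_apply]
  by_cases huv : u = v
  · subst huv
    simp
  · simp [huv]

theorem single_ze {d ε : ℝ} (w : Fin n → Eu κ) (y : Fin n → ℝ)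
    (f : (Fin n → Eu κ) → ℝ) (v : Fin n) :
    fderiv ℝ f (ze d w ε y) (Pi.single v (ze d w ε y v)) =
      ph d ε (y v) * fderiv ℝ f (ze d w ε y) (Pi.single v (w v)) := by
  have : (Pi.single v (ze d w ε y v) : Fin n → Eu κ) = ph d ε (y v) • Pi.single v (w v) := by
    rw [← Pi.single_smul]
    rfl
  rw [this, map_smul, smul_eq_mul]

end main

/-- **RAD** -/
theorem rad : S_RAD := by
  intro n κ _ _ R hM f hf w z hz
  set d : ℝ := (Fintype.card κ : ℝ) with hd'
  have hd : 0 < d := by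
    rw [hd']
    exact_mod_cast Fintype.card_pos
  have hK := compact_KK R
  -- the three families of integrals
  have hf0 : Continuous f := hf.continuous
  have hfd : Continuous fun p : (Fin n → Eu κ) × (Fin n → Eu κ) => fderiv ℝ f p.1 p.2 :=
    hf.continuous_fderiv_apply (by norm_num)
  have c1 : Continuous fun ε : ℝ => ∫ y in KK R, f (ze d w ε y) := by
    refine continuous_parametric_integral_of_continuous
      (f := fun ε y => f (ze d w ε y)) ?_ hK
    exact hf0.comp (ze_cont hd w)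
  have c2 : Continuous fun ε : ℝ => ∫ y in KK R, f (ze d w ε y) ^ 2 := by
    refine continuous_parametric_integral_of_continuous
      (f := fun ε y => f (ze d w ε y) ^ 2) ?_ hK
    exact (hf0.comp (ze_cont hd w)).pow 2
  have cD : ∀ v : Fin n, Continuous fun p : ℝ × (Fin n → ℝ) =>
      (fderiv ℝ f (ze d w p.1 p.2) (Pi.single v (ze d w p.1 p.2 v))) ^ 2 := by
    intro v
    have h1 : Continuous fun p : ℝ × (Fin n → ℝ) =>
        (Pi.single v (ze d w p.1 p.2 v) : Fin n → Eu κ) :=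
      (continuous_single v).comp ((continuous_apply v).comp (ze_cont hd w))
    exact (hfd.comp ((ze_cont hd w).prodMk h1)).pow 2
  have c3 : ∀ v : Fin n, Continuous fun ε : ℝ => ∫ y in KK R,
      (fderiv ℝ f (ze d w ε y) (Pi.single v (ze d w ε y v))) ^ 2 := by
    intro v
    exact continuous_parametric_integral_of_continuous
      (f := fun ε y => (fderiv ℝ f (ze d w ε y) (Pi.single v (ze d w ε y v))) ^ 2) (cD v) hK
  -- the inequality for positive ε
  have key : ∀ ε : ℝ, 0 < ε →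
      (∫ y in KK R, f (ze d w ε y) ^ 2) -
          (∫ y in KK R, f (ze d w ε y)) ^ 2 / (volume (KK R)).toReal ≤
        4 / d ^ 2 * ∑ v : Fin n, ∫ y in KK R,
          (fderiv ℝ f (ze d w ε y) (Pi.single v (ze d w ε y v))) ^ 2 := by
    intro ε hε
    have h1 := hM (fun y => f (ze d w ε y)) (hf.comp (ze_contDiff hε w))
    refine h1.trans ?_
    rw [div_one, one_mul, Finset.mul_sum]
    refine Finset.sum_le_sum fun v _ => ?_
    rw [← integral_const_mul]
    have hc4 : Continuous fun y : Fin n → ℝ => (1 - y v ^ 2) ^ 2 *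
        (fderiv ℝ (fun y => f (ze d w ε y)) y (Pi.single v 1)) ^ 2 := by
      have h5 : ContDiff ℝ 1 fun y => f (ze d w ε y) := hf.comp (ze_contDiff hε w)
      have h6 : Continuous fun y : Fin n → ℝ =>
          fderiv ℝ (fun y => f (ze d w ε y)) y (Pi.single v 1) :=
        (h5.continuous_fderiv (by norm_num)).clm_apply continuous_const
      fun_prop
    have hc5 : Continuous fun y : Fin n → ℝ => 4 / d ^ 2 *
        (fderiv ℝ f (ze d w ε y) (Pi.single v (ze d w ε y v))) ^ 2 := by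
      have h8 : Continuous fun y : Fin n → ℝ => ((ε, y) : ℝ × (Fin n → ℝ)) :=
        continuous_const.prodMk continuous_id
      have h9 := (cD v).comp h8
      exact continuous_const.mul h9
    refine setIntegral_mono_on (hc4.continuousOn.integrableOn_compact hK)
      (hc5.continuousOn.integrableOn_compact hK) hK.measurableSet fun y hy => ?_
    rw [fderiv_comp_ze hε w y hf v, single_ze]
    have h7 := dph_le hd hε (hy.1 v)
    calc (1 - y v ^ 2) ^ 2 * (dph d ε (y v) *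
          fderiv ℝ f (ze d w ε y) (Pi.single v (w v))) ^ 2
        = ((1 - y v ^ 2) ^ 2 * dph d ε (y v) ^ 2) *
          (fderiv ℝ f (ze d w ε y) (Pi.single v (w v))) ^ 2 := by ring
      _ ≤ (4 / d ^ 2 * ph d ε (y v) ^ 2) *
          (fderiv ℝ f (ze d w ε y) (Pi.single v (w v))) ^ 2 :=
          mul_le_mul_of_nonneg_right h7 (sq_nonneg _)
      _ = 4 / d ^ 2 * (ph d ε (y v) *
          fderiv ℝ f (ze d w ε y) (Pi.single v (w v))) ^ 2 := by ring
  -- the limit
  have hlim : (∫ y in KK R, f (ze d w 0 y) ^ 2) -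
      (∫ y in KK R, f (ze d w 0 y)) ^ 2 / (volume (KK R)).toReal ≤
        4 / d ^ 2 * ∑ v : Fin n, ∫ y in KK R,
          (fderiv ℝ f (ze d w 0 y) (Pi.single v (ze d w 0 y v))) ^ 2 := by
    have t1 : Continuous fun ε : ℝ => (∫ y in KK R, f (ze d w ε y) ^ 2) -
          (∫ y in KK R, f (ze d w ε y)) ^ 2 / (volume (KK R)).toReal :=
      c2.sub ((c1.pow 2).div_const _)
    have t2 : Continuous fun ε : ℝ => 4 / d ^ 2 * ∑ v : Fin n, ∫ y in KK R,
          (fderiv ℝ f (ze d w ε y) (Pi.single v (ze d w ε y v))) ^ 2 :=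
      continuous_const.mul (continuous_finsetSum _ fun v _ => c3 v)
    refine le_of_tendsto_of_tendsto (b := 𝓝[>] (0 : ℝ)) ((t1.tendsto 0).mono_left nhdsWithin_le_nhds)
      ((t2.tendsto 0).mono_left nhdsWithin_le_nhds) ?_
    filter_upwards [self_mem_nhdsWithin] with ε hε
    exact key ε hε
  have hzz : ∀ y ∈ KK R, ze d w 0 y = z y := by
    intro y hy
    funext v
    rw [hz y v]
    unfold ze
    rw [ph_zero (hy.1 v).1]
  have e1 : ∫ y in KK R, f (z y) ^ 2 = ∫ y in KK R, f (ze d w 0 y) ^ 2 :=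
    setIntegral_congr_fun hK.measurableSet fun y hy => by
      change f (z y) ^ 2 = f (ze d w 0 y) ^ 2
      rw [hzz y hy]
  have e2 : ∫ y in KK R, f (z y) = ∫ y in KK R, f (ze d w 0 y) :=
    setIntegral_congr_fun hK.measurableSet fun y hy => by
      change f (z y) = f (ze d w 0 y)
      rw [hzz y hy]
  have e3 : ∀ v : Fin n, ∫ y in KK R, (fderiv ℝ f (z y) (Pi.single v (z y v))) ^ 2 =
      ∫ y in KK R, (fderiv ℝ f (ze d w 0 y) (Pi.single v (ze d w 0 y v))) ^ 2 := fun v =>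
    setIntegral_congr_fun hK.measurableSet fun y hy => by
      change (fderiv ℝ f (z y) (Pi.single v (z y v))) ^ 2 =
        (fderiv ℝ f (ze d w 0 y) (Pi.single v (ze d w 0 y v))) ^ 2
      rw [hzz y hy]
  rw [e1, e2, Finset.sum_congr rfl fun v _ => e3 v]
  exact hlim

end Run7.h586.EP
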